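import Mathlib
import Pool.Agent.P.MP_27056a_lc.Cube3

namespace Pool.Agent.Results.MP_27056a_lc.Dim3

open Pool.Agent.P.MP_27056a_lc.D3

/-- A measurable action of `ℤ ^ 3` has a measurable `2 ^ 3`-polychromatic colouring if and only if
it carries a `1`-fold invariant triple of measurable proper 2-colourings of the coordinate
subactions such that, on every coordinate plane of every orbit, one of the two colourings that
belong to the plane is invariant under the other generator of the plane. -/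
theorem result (X : Type) [MeasurableSpace X] [AddAction (Fin 3 → ℤ) X]
    (hm : Measurable fun p : (Fin 3 → ℤ) × X => p.1 +ᵥ p.2) :
    (∃ c : X → Fin (2 ^ 3), Measurable c ∧ ∀ (x : X) (k : Fin (2 ^ 3)),
      ∃ e : Fin 3 → ℤ, (∀ i, e i = 0 ∨ e i = 1) ∧ c (e +ᵥ x) = k) ↔
    ∃ c : Fin 3 → X → Fin 2,
      (∀ i, Measurable (c i)) ∧
      (∀ i x, c i ((Pi.single i 1 : Fin 3 → ℤ) +ᵥ x) ≠ c i x) ∧
      (∀ y : X, ∃ i, ∀ x ∈ AddAction.orbit (Fin 3 → ℤ) y,
        ∀ j, j ≠ i → c i ((Pi.single j 1 : Fin 3 → ℤ) +ᵥ x) = c i x) ∧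
      ∀ i j, i ≠ j → ∀ y : X,
        (∀ m n : ℤ, c i ((Pi.single j 1 : Fin 3 → ℤ) +ᵥ
            ((Pi.single i m + Pi.single j n : Fin 3 → ℤ) +ᵥ y)) =
          c i ((Pi.single i m + Pi.single j n : Fin 3 → ℤ) +ᵥ y)) ∨
        ∀ m n : ℤ, c j ((Pi.single i 1 : Fin 3 → ℤ) +ᵥ
            ((Pi.single i m + Pi.single j n : Fin 3 → ℤ) +ᵥ y)) =
          c j ((Pi.single i m + Pi.single j n : Fin 3 → ℤ) +ᵥ y) := by
  classical
  have hg : ∀ g : G, Measurable fun x : X => g +ᵥ x := fun g =>
    hm.comp (measurable_const.prodMk measurable_id)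
  constructor
  · rintro ⟨c, mc, hc⟩
    have T := til_bit hc
    have mb : ∀ i, Measurable (bit c i) := fun i =>
      Measurable.exists fun e => measurable_const.and (measurable_const.and
        ((measurable_of_countable fun k => k = 0).comp (mc.comp (hg e))))
    refine ⟨fun i x => if Q (bit c) i x then 1 else 0, fun i => ?_, fun i x => ?_, fun y => ?_,
      fun i j hij y => ?_⟩
    · exact (measurable_of_countable fun p : Prop => if p then (1 : Fin 2) else 0).comp
        (Q_meas hg mb i)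
    · have := T.Q_fl i x
      by_cases a : Q (bit c) i x
      · simp [a, this]
      · simp [a, this]
    · obtain ⟨i, e⟩ := T.exE y
      refine ⟨i, ?_⟩
      rintro _ ⟨g, rfl⟩ j hj
      exact if_congr (Til.Q_inv ((E_inv g).2 e) hj) rfl rfl
    · exact (T.Q_plane hij.symm y).imp (fun k m n => if_congr (k m n) rfl rfl)
        fun k m n => if_congr (k m n) rfl rfl
  · rintro ⟨c, mc, h1, h2, h3⟩
    refine ⟨fun x => finFunctionFinEquiv fun i => c i x,
      (measurable_of_countable _).comp (measurable_pi_lambda _ mc), fun x k => ?_⟩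
    obtain ⟨i, hi⟩ := h2 x
    obtain ⟨e, he, r⟩ := rainbow h1 x (fun g j hj => hi _ ⟨g, rfl⟩ j hj) h3
      (finFunctionFinEquiv.symm k)
    exact ⟨e, he, by simp only [r, Equiv.apply_symm_apply]⟩

end Pool.Agent.Results.MP_27056a_lc.Dim3
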