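import Mathlib
import Pool.Agent.P.MP_27056a_lc.Pmp

namespace Pool.Agent.Results.MP_27056a_lc.StrictErgodic

open Pool.Agent.P.MP_27056a_lc MeasureTheory

/-- For every `d ≥ 2` there is a free Borel action of `ℤ^d` on a standard Borel space, ergodic for
an invariant probability measure, that carries a `(d-2)`-fold invariant tuple of Borel proper
2-colourings of the coordinate subactions but whose grid graph has no Borel `2^d`-polychromatic
colouring, not even off a null set. -/
theorem result (d : ℕ) (hd : 2 ≤ d) :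
    ∃ (X : Type) (_ : MeasurableSpace X) (_ : StandardBorelSpace X)
      (_ : AddAction (Fin d → ℤ) X) (μ : Measure X),
      Measurable (fun p : (Fin d → ℤ) × X => p.1 +ᵥ p.2) ∧
      (∀ (g : Fin d → ℤ) (x : X), g +ᵥ x = x → g = 0) ∧
      IsProbabilityMeasure μ ∧ ErgodicVAdd (Fin d → ℤ) X μ ∧
      (∃ c : Fin d → X → Fin 2,
        (∀ i, Measurable (c i)) ∧
        (∀ i x, c i ((Pi.single i 1 : Fin d → ℤ) +ᵥ x) ≠ c i x) ∧
        ∀ y : X, d - 2 ≤ Set.ncard {i : Fin d | ∀ x ∈ AddAction.orbit (Fin d → ℤ) y,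
          ∀ j, j ≠ i → c i ((Pi.single j 1 : Fin d → ℤ) +ᵥ x) = c i x}) ∧
      ¬ ∃ c : X → Fin (2 ^ d), Measurable c ∧
        ∀ᵐ x ∂μ, ∀ k : Fin (2 ^ d),
          ∃ e : Fin d → ℤ, (∀ i, e i = 0 ∨ e i = 1) ∧ c (e +ᵥ x) = k := by
  obtain ⟨n, rfl⟩ : ∃ n, d = n + 2 := ⟨d - 2, by omega⟩
  refine ⟨Sq n, inferInstance, inferInstance, act2 n, mu n, act2_meas n, ?_, mu_prob n, erg2 n,
    ⟨col2 n, col2_meas n, ?_, ?_⟩, ?_⟩
  · intro g x h
    exact psi_inj n g (add_eq_right.1 h)
  · intro i x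
    change col2 n i (psi n (Pi.single i 1) + x) ≠ col2 n i x
    rw [col2_step]
    simp
  · intro y
    have hinj : Function.Injective (fun j : Fin n => j.succ.succ) :=
      (Fin.succ_injective _).comp (Fin.succ_injective _)
    have h1 : (Set.range (fun j : Fin n => j.succ.succ)).ncard = n := by
      rw [Set.ncard_range_of_injective hinj]; simp
    rw [Nat.add_sub_cancel]
    refine h1.symm.le.trans (Set.ncard_le_ncard ?_ (Set.toFinite _))
    rintro _ ⟨j, rfl⟩ x _ i hi
    exact col2_inv n j i hi x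
  · rintro ⟨c, hc, h⟩
    exact no_poly2 n c hc h

end Pool.Agent.Results.MP_27056a_lc.StrictErgodic
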